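import Pool.Agent.U483.KS.Defs

/-!
# Regulators of Chow motives and the Grothendieck group of varieties: definitions
-/

set_option autoImplicit false

open CategoryTheory CategoryTheory.Limits AlgebraicGeometry Pool.Agent.Y116.UV
  Pool.Agent.U483.KM Pool.Agent.U483.GU Pool.Agent.U483.KS

namespace Pool.Agent.U483.KD

universe w x

/-- Chow motives, with the theorem of Gillet and Soulé (Guillén and Navarro Aznar; Bittner; Bondarko): every
additive function on the objects extends to the Grothendieck group of varieties. -/
structure ChowMotives (k : Type) [Field k] (𝓜 : Type w) [Category.{x} 𝓜] [Preadditive 𝓜]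
    [HasBinaryBiproducts 𝓜] where
  /-- the Chow motive of a smooth projective scheme -/
  h : Sch k → 𝓜
  measure : ∀ f : 𝓜 → ℤ, (∀ A B, Nonempty (A ≅ B) → f A = f B) →
    (∀ A B, f (A ⊞ B) = f A + f B) →
    ∃ χ : K0 k →+ ℤ, ∀ X : Var k, SmoothProjective X.1 → χ (cls X) = f (h X.1)

/-- A regulator (or cycle class map) on the category `𝓜` of Chow motives: a natural map from a functor `source`
(motivic cohomology) to a functor `target` with values in the finite-dimensional vector spaces over `E`. -/
structure Regulator (E : Type) [Field E] (𝓜 : Type w) [Category.{x} 𝓜] [Preadditive 𝓜] where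
  /-- motivic cohomology -/
  source : 𝓜 ⥤ Type
  /-- the finite-dimensional cohomology -/
  target : 𝓜 ⥤ ModuleCat.{0} E
  additive : target.Additive
  finite : ∀ A : 𝓜, Module.Finite E (target.obj A)
  /-- the regulator -/
  reg : ∀ A : 𝓜, source.obj A → target.obj A
  natural : ∀ {A B : 𝓜} (f : A ⟶ B) (a : source.obj A),
    (target.map f).hom (reg A a) = reg B (source.map f a)

/-- The image of the regulator of the motive `A` spans the target over `E`. -/
def Regulator.Spans {E : Type} [Field E] {𝓜 : Type w} [Category.{x} 𝓜] [Preadditive 𝓜]
    (r : Regulator.{w, x} E 𝓜) (A : 𝓜) : Prop := Submodule.span E (Set.range (r.reg A)) = ⊤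

section

variable {k : Type} [Field k]

/-- A smooth projective `X` has the property `Q` if and only if a multiple of its class is in the
group generated by the classes of the smooth projective schemes with `Q`; in particular this depends only on the
multiples of the class. -/
def Detected (Q : Sch k → Prop) : Prop :=
  (∀ X : Var k, SmoothProjective X.1 → ∀ n : ℤ, n ≠ 0 → (Q X.1 ↔ n • cls X ∈ goodGroup Q)) ∧
  ∀ X X' : Var k, SmoothProjective X.1 → SmoothProjective X'.1 → ∀ n : ℤ, n ≠ 0 →
    n • cls X = n • cls X' → (Q X.1 ↔ Q X'.1)

/-- Let `Q` be true in dimension at most `D`, and resolution of singularities be known in dimension at most `D`. Then `Q` is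
true for all smooth projective `X`, in arbitrary dimension, such that a multiple of the class is a combination of the classes of
schemes of dimension at most `D` (open or singular) and of smooth projective schemes with `Q`. -/
def DetectedByDimension (Q : Sch k → Prop) : Prop :=
  ∀ D : ℕ, Resolves k D →
    (∀ Y : Sch k, SmoothProjective Y → topologicalKrullDim Y.left ≤ D → Q Y) →
    ∀ X : Var k, SmoothProjective X.1 → ∀ n : ℤ, n ≠ 0 →
      n • cls X ∈ AddSubgroup.closure {c | ∃ Z : Var k, Base Q D Z.1 ∧ c = cls Z} → Q X.1

end

end Pool.Agent.U483.KD
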