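import Pool.Agent.U483.KD.Defs

/-!
# Regulators of Chow motives and the Grothendieck group of varieties
-/

set_option autoImplicit false

open CategoryTheory CategoryTheory.Limits AlgebraicGeometry Module Pool.Agent.Y116.UV
  Pool.Agent.U483.KM Pool.Agent.U483.GU Pool.Agent.U483.KS

namespace Pool.Agent.U483.KD

universe w x

section

variable {E : Type} [Field E] {𝓜 : Type w} [Category.{x} 𝓜] [Preadditive 𝓜]
  (r : Regulator.{w, x} E 𝓜)

/-- the span of the image -/
def img (A : 𝓜) : Submodule E (r.target.obj A) := Submodule.span E (Set.range (r.reg A))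

/-- the codimension of the span of the image -/
noncomputable def defect (A : 𝓜) : ℤ :=
  (finrank E (r.target.obj A) : ℤ) - finrank E (img r A)

lemma defect_eq_zero (A : 𝓜) : defect r A = 0 ↔ r.Spans A := by
  have := r.finite A
  constructor
  · intro h
    rw [defect, sub_eq_zero] at h
    exact Submodule.eq_top_of_finrank_eq (by exact_mod_cast h.symm)
  · intro h
    have h1 : img r A = ⊤ := h
    rw [defect, h1, finrank_top, sub_self]

lemma img_map {A B : 𝓜} (f : A ⟶ B) {a : r.target.obj A} (ha : a ∈ img r A) :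
    (r.target.map f).hom a ∈ img r B := by
  induction ha using Submodule.span_induction with
  | mem y hy =>
    obtain ⟨b, rfl⟩ := hy
    rw [r.natural]
    exact Submodule.subset_span ⟨_, rfl⟩
  | zero => simp
  | add y z _ _ h1 h2 =>
    rw [map_add]
    exact add_mem h1 h2
  | smul c y _ h1 =>
    rw [map_smul]
    exact Submodule.smul_mem _ _ h1

lemma map_comp_apply {A B C : 𝓜} (f : A ⟶ B) (g : B ⟶ C) (a : r.target.obj A) :
    (r.target.map g).hom ((r.target.map f).hom a) = (r.target.map (f ≫ g)).hom a := by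
  rw [r.target.map_comp]
  rfl

lemma map_id_apply (A : 𝓜) (a : r.target.obj A) : (r.target.map (𝟙 A)).hom a = a := by
  rw [r.target.map_id]
  rfl

lemma defect_iso {A B : 𝓜} (e : A ≅ B) : defect r A = defect r B := by
  let l : r.target.obj A ≃ₗ[E] r.target.obj B :=
    { (r.target.map e.hom).hom with
      invFun := (r.target.map e.inv).hom
      left_inv := fun a => by
        change (r.target.map e.inv).hom ((r.target.map e.hom).hom a) = a
        rw [map_comp_apply, e.hom_inv_id, map_id_apply]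
      right_inv := fun a => by
        change (r.target.map e.hom).hom ((r.target.map e.inv).hom a) = a
        rw [map_comp_apply, e.inv_hom_id, map_id_apply] }
  have h1 : (img r A).map (l : r.target.obj A →ₗ[E] r.target.obj B) = img r B := by
    ext b
    constructor
    · rintro ⟨a, ha, rfl⟩
      exact img_map r e.hom ha
    · intro hb
      exact ⟨(r.target.map e.inv).hom b, img_map r e.inv hb, l.right_inv b⟩
  rw [defect, defect, l.finrank_eq, ← h1, LinearEquiv.finrank_map_eq l]

lemma finrank_prod_sub' {V W : Type} [AddCommGroup V] [Module E V] [AddCommGroup W] [Module E W]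
    [Module.Finite E V] [Module.Finite E W] (p : Submodule E V) (q : Submodule E W) :
    finrank E (p.prod q) = finrank E p + finrank E q := by
  let e : (p.prod q) ≃ₗ[E] p × q :=
    { toFun := fun t => (⟨t.1.1, t.2.1⟩, ⟨t.1.2, t.2.2⟩)
      invFun := fun t => ⟨(t.1.1, t.2.1), t.1.2, t.2.2⟩
      left_inv := fun _ => rfl
      right_inv := fun _ => rfl
      map_add' := fun _ _ => rfl
      map_smul' := fun _ _ => rfl }
  rw [e.finrank_eq, finrank_prod]

lemma defect_sum [HasBinaryBiproducts 𝓜] (A B : 𝓜) :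
    defect r (A ⊞ B) = defect r A + defect r B := by
  have hadd := r.additive
  have hA := r.finite A
  have hB := r.finite B
  have h0 : ∀ {X Y : 𝓜} (a : r.target.obj X), (r.target.map (0 : X ⟶ Y)).hom a = 0 := by
    intro X Y a
    rw [r.target.map_zero]
    rfl
  have htot : ∀ a : r.target.obj (A ⊞ B),
      (r.target.map (biprod.inl : A ⟶ A ⊞ B)).hom ((r.target.map (biprod.fst : A ⊞ B ⟶ A)).hom a) +
      (r.target.map (biprod.inr : B ⟶ A ⊞ B)).hom ((r.target.map (biprod.snd : A ⊞ B ⟶ B)).hom a) =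
      a := by
    intro a
    rw [map_comp_apply, map_comp_apply]
    have h1 : (r.target.map (biprod.fst ≫ biprod.inl : A ⊞ B ⟶ A ⊞ B)).hom a +
        (r.target.map (biprod.snd ≫ biprod.inr : A ⊞ B ⟶ A ⊞ B)).hom a =
        (r.target.map (biprod.fst ≫ biprod.inl + biprod.snd ≫ biprod.inr : A ⊞ B ⟶ A ⊞ B)).hom a := by
      rw [r.target.map_add]
      rfl
    rw [h1, biprod.total, map_id_apply]
  let l : r.target.obj (A ⊞ B) ≃ₗ[E] r.target.obj A × r.target.obj B :=
    { toFun := fun a => ((r.target.map (biprod.fst : A ⊞ B ⟶ A)).hom a,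
        (r.target.map (biprod.snd : A ⊞ B ⟶ B)).hom a)
      invFun := fun t => (r.target.map (biprod.inl : A ⟶ A ⊞ B)).hom t.1 +
        (r.target.map (biprod.inr : B ⟶ A ⊞ B)).hom t.2
      left_inv := htot
      right_inv := fun t => by
        ext
        · simp only [map_add]
          rw [map_comp_apply, map_comp_apply, biprod.inl_fst, biprod.inr_fst, map_id_apply, h0,
            add_zero]
        · simp only [map_add]
          rw [map_comp_apply, map_comp_apply, biprod.inl_snd, biprod.inr_snd, map_id_apply, h0,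
            zero_add]
      map_add' := fun a b => by ext <;> simp
      map_smul' := fun c a => by ext <;> simp }
  have h2 : (img r (A ⊞ B)).map (l : r.target.obj (A ⊞ B) →ₗ[E] _) = (img r A).prod (img r B) := by
    ext ⟨a, b⟩
    constructor
    · rintro ⟨u, hu, h3⟩
      have h4 : ((r.target.map (biprod.fst : A ⊞ B ⟶ A)).hom u,
        (r.target.map (biprod.snd : A ⊞ B ⟶ B)).hom u) = (a, b) := h3
      rw [Prod.mk.injEq] at h4
      exact ⟨h4.1 ▸ img_map r _ hu, h4.2 ▸ img_map r _ hu⟩
    · rintro ⟨h3, h4⟩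
      exact ⟨l.symm (a, b), add_mem (img_map r _ h3) (img_map r _ h4), l.apply_symm_apply (a, b)⟩
  have h3 : finrank E (img r (A ⊞ B)) = finrank E (img r A) + finrank E (img r B) := by
    rw [← LinearEquiv.finrank_map_eq l (img r (A ⊞ B)), h2, finrank_prod_sub']
  rw [defect, defect, defect, l.finrank_eq, h3, finrank_prod]
  push_cast
  ring

end

section

variable {k : Type} [Field k] {𝓜 : Type w} [Category.{x} 𝓜] [Preadditive 𝓜]
  [HasBinaryBiproducts 𝓜] (H : ChowMotives.{w, x} k 𝓜)

/-- A property of motives which is given by the vanishing of additive functions. -/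
theorem detected_of_functions {𝓕 : Set (𝓜 → ℤ)}
    (h𝓕 : ∀ f ∈ 𝓕, (∀ A B, Nonempty (A ≅ B) → f A = f B) ∧ ∀ A B, f (A ⊞ B) = f A + f B)
    {Q : Sch k → Prop} (hQ : ∀ X, SmoothProjective X → (Q X ↔ ∀ f ∈ 𝓕, f (H.h X) = 0)) :
    Detected Q ∧ DetectedByDimension Q := by
  have key : ∀ X : Var k, SmoothProjective X.1 → ∀ n : ℤ, n ≠ 0 →
      (Q X.1 ↔ n • cls X ∈ goodGroup Q) := by
    intro X hX n hn
    refine ⟨fun h => ?_, fun h => (hQ X.1 hX).2 fun f hf => ?_⟩
    · have h0 : cls X ∈ goodGroup Q := AddSubgroup.subset_closure ⟨X, hX, h, rfl⟩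
      exact zsmul_mem h0 n
    · obtain ⟨χ, hχ⟩ := H.measure f (h𝓕 f hf).1 (h𝓕 f hf).2
      have hker : goodGroup Q ≤ χ.ker := by
        refine (AddSubgroup.closure_le _).2 ?_
        rintro _ ⟨Y, hY, hQY, rfl⟩
        change χ (cls Y) = 0
        rw [hχ Y hY]
        exact (hQ Y.1 hY).1 hQY f hf
      have h0 : χ (n • cls X) = 0 := hker h
      rw [map_zsmul, hχ X hX, smul_eq_mul] at h0
      exact (mul_eq_zero.1 h0).resolve_left hn
  refine ⟨⟨key, fun X X' hX hX' n hn h => ?_⟩, fun D hres hD X hX n hn h => ?_⟩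
  · exact (key X hX n hn).trans (h ▸ (key X' hX' n hn).symm)
  · refine (key X hX n hn).2 ?_
    have hle : AddSubgroup.closure {c | ∃ Z : Var k, Base Q D Z.1 ∧ c = cls Z} ≤ goodGroup Q := by
      refine (AddSubgroup.closure_le _).2 ?_
      rintro _ ⟨Z, h1 | h1, rfl⟩
      · refine AddSubgroup.closure_mono ?_ (hres Z h1.2)
        rintro _ ⟨W, hW, hd, rfl⟩
        exact ⟨W, hW, hD _ hW hd, rfl⟩
      · exact AddSubgroup.subset_closure ⟨Z, h1.1, h1.2, rfl⟩
    exact hle h

/-- Two families of regulators. -/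
theorem detected_regulators {E E' ι ι' : Type} [Field E] [Field E'] (r : ι → Regulator.{w, x} E 𝓜)
    (r' : ι' → Regulator.{w, x} E' 𝓜) {Q : Sch k → Prop}
    (hQ : ∀ X, SmoothProjective X → (Q X ↔ (∀ t, (r t).Spans (H.h X)) ∧ ∀ t, (r' t).Spans (H.h X))) :
    Detected Q ∧ DetectedByDimension Q := by
  refine detected_of_functions H (𝓕 := Set.range (fun t => defect (r t)) ∪
    Set.range fun t => defect (r' t)) ?_ fun X hX => ?_
  · rintro f (⟨t, rfl⟩ | ⟨t, rfl⟩)
    · exact ⟨fun A B ⟨e⟩ => defect_iso _ e, defect_sum _⟩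
    · exact ⟨fun A B ⟨e⟩ => defect_iso _ e, defect_sum _⟩
  · rw [hQ X hX]
    constructor
    · rintro ⟨h1, h2⟩ f (⟨t, rfl⟩ | ⟨t, rfl⟩)
      · exact (defect_eq_zero _ _).2 (h1 t)
      · exact (defect_eq_zero _ _).2 (h2 t)
    · intro h
      exact ⟨fun t => (defect_eq_zero _ _).1 (h _ (Or.inl ⟨t, rfl⟩)),
        fun t => (defect_eq_zero _ _).1 (h _ (Or.inr ⟨t, rfl⟩))⟩

end

end Pool.Agent.U483.KD
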